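import Mathlib

set_option autoImplicit false

namespace Pool.Agent.Results.MP_f836f4_co.NoSphereBound

/-- `X` has infinite motion: every automorphism other than the identity moves infinitely many
vertices. -/
def InfiniteMotion {V : Type} (X : SimpleGraph V) : Prop :=
  ∀ σ : X ≃g X, (∃ v, σ v ≠ v) → {v | σ v ≠ v}.Infinite

/-- The 2-colouring `c` (`true` is red, `false` is blue) is asymmetric: the identity is the only
automorphism of the graph `X` that preserves every vertex colour. -/
def IsAsymmetric {V : Type} (X : SimpleGraph V) (c : V → Bool) : Prop :=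
  ∀ σ : X ≃g X, (∀ v, c (σ v) = c v) → ∀ v, σ v = v

/-- The nodes of depth `d` of the rooted tree in which every node of depth `k` has `D k`
children. -/
def Node (D : ℕ → ℕ) : ℕ → Type
  | 0 => Unit
  | d + 1 => Node D d × Fin (D d)

/-- The vertices of the graph: a root, two vertices for every tree node, and `2 ^ D d` vertices
for every tree node of depth `d`. -/
inductive Vtx (D : ℕ → ℕ) : Type
  | root : Vtx D
  | P : (d : ℕ) → Node D d → ZMod 2 → Vtx D
  | Q : (d : ℕ) → Node D d → (Fin (D d) → ZMod 2) → Vtx D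

open Vtx

/-- The upward edges. -/
inductive Up (D : ℕ → ℕ) : Vtx D → Vtx D → Prop
  | rootP (x : ZMod 2) : Up D root (P 0 () x)
  | PQ (d : ℕ) (i : Node D d) (ξ : Fin (D d) → ZMod 2) : Up D (P d i (∑ j, ξ j)) (Q d i ξ)
  | QP (d : ℕ) (i : Node D d) (ξ : Fin (D d) → ZMod 2) (j : Fin (D d)) :
      Up D (Q d i ξ) (P (d + 1) (i, j) (ξ j))

/-- The level of a vertex. -/
def lvl {D : ℕ → ℕ} : Vtx D → ℕ
  | root => 0
  | P d _ _ => 2 * d + 1
  | Q d _ _ => 2 * d + 2

variable {D : ℕ → ℕ}

lemma Up.lvl_eq {u v : Vtx D} (h : Up D u v) : lvl v = lvl u + 1 := by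
  cases h <;> simp [lvl] <;> ring

/-- The graph. -/
def G (D : ℕ → ℕ) : SimpleGraph (Vtx D) where
  Adj u v := Up D u v ∨ Up D v u
  symm := ⟨fun _ _ h => h.symm⟩
  loopless := ⟨fun v h => by
    rcases h with h | h
    · have := h.lvl_eq; omega
    · have := h.lvl_eq; omega⟩

lemma adj_lvl {u v : Vtx D} (h : (G D).Adj u v) : lvl v = lvl u + 1 ∨ lvl u = lvl v + 1 := by
  rcases h with h | h
  · exact Or.inl h.lvl_eq
  · exact Or.inr h.lvl_eq

lemma exists_down (v : Vtx D) (hv : v ≠ root) : ∃ u, Up D u v := by
  match v with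
  | root => exact absurd rfl hv
  | P 0 i x => exact ⟨root, Up.rootP x⟩
  | P (d + 1) (i, j) x => exact ⟨Q d i (fun _ => x), Up.QP d i (fun _ => x) j⟩
  | Q d i ξ => exact ⟨_, Up.PQ d i ξ⟩

lemma lvl_eq_zero {v : Vtx D} (h : lvl v = 0) : v = root := by
  cases v <;> simp [lvl] at h ⊢

lemma exists_walk (n : ℕ) : ∀ v : Vtx D, lvl v = n → ∃ w : (G D).Walk root v, w.length = n := by
  induction n with
  | zero =>
    intro v hv
    obtain rfl := lvl_eq_zero hv
    exact ⟨SimpleGraph.Walk.nil, rfl⟩
  | succ n ih =>
    intro v hv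
    have hne : v ≠ root := by
      rintro rfl
      simp [lvl] at hv
    obtain ⟨u, hu⟩ := exists_down v hne
    have h1 := hu.lvl_eq
    obtain ⟨w, hw⟩ := ih u (by omega)
    have h2 : (G D).Adj u v := Or.inl hu
    exact ⟨w.concat h2, by rw [SimpleGraph.Walk.length_concat, hw]⟩

lemma lvl_le_length {u v : Vtx D} (w : (G D).Walk u v) : lvl v ≤ lvl u + w.length := by
  induction w with
  | nil => simp
  | cons h p ih =>
    have := adj_lvl h
    simp only [SimpleGraph.Walk.length_cons]
    omega

lemma connected : (G D).Connected := by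
  have h : ∀ v, (G D).Reachable root v := fun v => by
    obtain ⟨w, _⟩ := exists_walk (lvl v) v rfl
    exact ⟨w⟩
  have : Nonempty (Vtx D) := ⟨root⟩
  exact ⟨fun u v => (h u).symm.trans (h v)⟩

lemma dist_root (v : Vtx D) : (G D).dist root v = lvl v := by
  obtain ⟨w, hw⟩ := exists_walk (lvl v) v rfl
  apply le_antisymm
  · exact hw ▸ SimpleGraph.dist_le w
  · obtain ⟨w', hw'⟩ := (connected (D := D)).exists_walk_length_eq_dist root v
    have h1 := lvl_le_length w'
    have h2 : lvl (root : Vtx D) = 0 := rfl
    omega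

instance nodeFinite (d : ℕ) : Finite (Node D d) := by
  induction d with
  | zero => exact inferInstanceAs (Finite Unit)
  | succ d ih =>
    have := ih
    exact inferInstanceAs (Finite (Node D d × Fin (D d)))

lemma lvl_finite (n : ℕ) : {v : Vtx D | lvl v ≤ n}.Finite := by
  have h1 : (⋃ d ∈ Set.Iic n, Set.range (fun p : Node D d × ZMod 2 => P d p.1 p.2)).Finite :=
    Set.Finite.biUnion (Set.finite_Iic n) (fun d _ => Set.finite_range _)
  have h2 : (⋃ d ∈ Set.Iic n,
      Set.range (fun p : Node D d × (Fin (D d) → ZMod 2) => Q d p.1 p.2)).Finite :=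
    Set.Finite.biUnion (Set.finite_Iic n) (fun d _ => Set.finite_range _)
  refine ((Set.finite_singleton (root : Vtx D)).union (h1.union h2)).subset ?_
  intro v hv
  match v with
  | root => left; rfl
  | P d i x =>
    right; left
    simp only [Set.mem_iUnion]
    refine ⟨d, ?_, (i, x), rfl⟩
    simp only [Set.mem_ofPred_eq, lvl] at hv
    simp only [Set.mem_Iic]; omega
  | Q d i ξ =>
    right; right
    simp only [Set.mem_iUnion]
    refine ⟨d, ?_, (i, ξ), rfl⟩
    simp only [Set.mem_ofPred_eq, lvl] at hv
    simp only [Set.mem_Iic]; omega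

lemma locallyFinite (v : Vtx D) : ((G D).neighborSet v).Finite := by
  refine (lvl_finite (D := D) (lvl v + 1)).subset ?_
  intro w hw
  have := adj_lvl (show (G D).Adj v w from hw)
  simp only [Set.mem_ofPred_eq]
  omega

lemma exists_sum_eq (hD : ∀ d, 2 ≤ D d) (d : ℕ) (x : ZMod 2) :
    ∃ ξ : Fin (D d) → ZMod 2, ∑ j, ξ j = x := by
  have h0 : 0 < D d := by have := hD d; omega
  refine ⟨fun j => if j = ⟨0, h0⟩ then x else 0, ?_⟩
  simp

/-- A vertex is determined, inside its level, by any set of upward neighbours containing its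
own. -/
lemma up_injective (hD : ∀ d, 2 ≤ D d) {u u' : Vtx D} (hl : lvl u = lvl u')
    (h : ∀ w, Up D u w → Up D u' w) : u = u' := by
  match u with
  | root => exact (lvl_eq_zero (by rw [← hl]; rfl)).symm
  | P d i x =>
    obtain ⟨ξ, hξ⟩ := exists_sum_eq hD d x
    subst hξ
    have h1 := h _ (Up.PQ d i ξ)
    cases h1
    rfl
  | Q d i ξ =>
    have h0 : 0 < D d := by have := hD d; omega
    match u' with
    | root => simp [lvl] at hl
    | P d' i' x' => simp only [lvl] at hl; omega
    | Q d' i' ξ' =>
      have hdd : d = d' := by simp only [lvl] at hl; omega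
      subst hdd
      have key : ∀ j, i' = i ∧ ξ' j = ξ j := by
        intro j
        have h1 := h _ (Up.QP d i ξ j)
        generalize hw : P (d + 1) (i, j) (ξ j) = w at h1
        cases h1 with
        | QP _ _ _ j' =>
          injection hw with h2 h3 h4
          have h5 : i = i' := congrArg Prod.fst h3
          have h6 : j = j' := congrArg Prod.snd h3
          subst h6
          exact ⟨h5.symm, h4.symm⟩
      have e1 : i' = i := (key ⟨0, h0⟩).1
      have e2 : ξ' = ξ := funext fun j => (key j).2
      rw [e1, e2]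

lemma infiniteMotion (hD : ∀ d, 2 ≤ D d) : InfiniteMotion (G D) := by
  intro σ hσ hfin
  obtain ⟨v, hv⟩ := hσ
  obtain ⟨u, hu, hmax⟩ := hfin.exists_maximalFor lvl _ ⟨v, hv⟩
  have hu' : σ u ≠ u := hu
  have hmax' : ∀ w, σ w ≠ w → lvl w ≤ lvl u := by
    intro w hw
    by_contra hlt
    have := hmax (show w ∈ {v | σ v ≠ v} from hw) (by omega)
    omega
  have hσu : σ (σ u) ≠ σ u := fun h => hu' (σ.injective h)
  have hle : lvl (σ u) ≤ lvl u := hmax' _ hσu
  have key : ∀ w, Up D u w → Up D (σ u) w := by
    intro w hw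
    have h1 := hw.lvl_eq
    have h2 : σ w = w := by
      by_contra h3
      have := hmax' w h3
      omega
    have h3 : (G D).Adj (σ u) (σ w) := σ.map_rel_iff.2 (Or.inl hw)
    rw [h2] at h3
    rcases h3 with h3 | h3
    · exact h3
    · have := h3.lvl_eq
      omega
  have hex : ∃ w, Up D u w := by
    match u with
    | root => exact ⟨_, Up.rootP 0⟩
    | P d i x =>
      obtain ⟨ξ, hξ⟩ := exists_sum_eq hD d x
      subst hξ
      exact ⟨_, Up.PQ d i ξ⟩
    | Q d i ξ =>
      exact ⟨_, Up.QP d i ξ ⟨0, by have := hD d; omega⟩⟩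
  obtain ⟨w, hw⟩ := hex
  have h1 := hw.lvl_eq
  have h2 := (key w hw).lvl_eq
  exact hu' (up_injective hD (by omega) key).symm

/-- The automorphism attached to a labelling `g` of the tree nodes. -/
def act (g : (d : ℕ) → Node D d → ZMod 2) : Vtx D → Vtx D
  | root => root
  | P d i x => P d i (x + g d i)
  | Q d i ξ => Q d i (fun j => ξ j + g (d + 1) (i, j))

lemma add_add_self (x y : ZMod 2) : x + y + y = x := by
  revert x y; decide

lemma act_act (g : (d : ℕ) → Node D d → ZMod 2) (v : Vtx D) : act g (act g v) = v := by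
  match v with
  | root => rfl
  | P d i x => simp only [act, add_add_self]
  | Q d i ξ => simp only [act, add_add_self]

lemma act_up (g : (d : ℕ) → Node D d → ZMod 2)
    (hg : ∀ d (i : Node D d), g d i = ∑ j, g (d + 1) (i, j)) {u v : Vtx D} (h : Up D u v) :
    Up D (act g u) (act g v) := by
  cases h with
  | rootP x => exact Up.rootP _
  | PQ d i ξ =>
    have h1 := Up.PQ d i (fun j => ξ j + g (d + 1) (i, j))
    rw [Finset.sum_add_distrib, ← hg] at h1
    exact h1
  | QP d i ξ j => exact Up.QP d i (fun j => ξ j + g (d + 1) (i, j)) j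

/-- The automorphism attached to a labelling `g` of the tree nodes. -/
def actIso (g : (d : ℕ) → Node D d → ZMod 2)
    (hg : ∀ d (i : Node D d), g d i = ∑ j, g (d + 1) (i, j)) : G D ≃g G D where
  toFun := act g
  invFun := act g
  left_inv := act_act g
  right_inv := act_act g
  map_rel_iff' := by
    have h1 : ∀ u v, (G D).Adj u v → (G D).Adj (act g u) (act g v) := by
      intro u v h
      rcases h with h | h
      · exact Or.inl (act_up g hg h)
      · exact Or.inr (act_up g hg h)
    intro u v
    constructor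
    · intro h
      have := h1 _ _ h
      simpa only [Equiv.coe_fn_mk, act_act] using this
    · exact h1 u v

/-- a tree node is bad if one of its vertices is red -/
def Bad (c : Vtx D → Bool) (d : ℕ) (i : Node D d) : Prop :=
  (∃ x, c (P d i x) = true) ∨ (∃ ξ, c (Q d i ξ) = true)

/-- the red vertices of level `r` -/
def Red (c : Vtx D → Bool) (r : ℕ) : Set (Vtx D) := {v | lvl v = r ∧ c v = true}

lemma bad_encard (c : Vtx D → Bool) (d : ℕ) :
    {i : Node D d | Bad c d i}.encard ≤ (Red c (2 * d + 1)).encard + (Red c (2 * d + 2)).encard := by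
  have h1 : {i : Node D d | ∃ x, c (P d i x) = true}.encard ≤ (Red c (2 * d + 1)).encard := by
    classical
    refine Set.encard_le_encard_of_injOn
      (f := fun i => if h : ∃ x, c (P d i x) = true then P d i h.choose else root) ?_ ?_
    · intro i hi
      have hi' : ∃ x, c (P d i x) = true := hi
      simp only [dif_pos hi']
      exact ⟨rfl, hi'.choose_spec⟩
    · intro i hi j hj hij
      have hi' : ∃ x, c (P d i x) = true := hi
      have hj' : ∃ x, c (P d j x) = true := hj
      simp only [dif_pos hi', dif_pos hj'] at hij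
      injection hij
  have h2 : {i : Node D d | ∃ ξ, c (Q d i ξ) = true}.encard ≤ (Red c (2 * d + 2)).encard := by
    classical
    refine Set.encard_le_encard_of_injOn
      (f := fun i => if h : ∃ ξ, c (Q d i ξ) = true then Q d i h.choose else root) ?_ ?_
    · intro i hi
      have hi' : ∃ ξ, c (Q d i ξ) = true := hi
      simp only [dif_pos hi']
      exact ⟨rfl, hi'.choose_spec⟩
    · intro i hi j hj hij
      have hi' : ∃ x, c (Q d i x) = true := hi
      have hj' : ∃ x, c (Q d j x) = true := hj
      simp only [dif_pos hi', dif_pos hj'] at hij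
      injection hij
  calc {i : Node D d | Bad c d i}.encard
      = ({i : Node D d | ∃ x, c (P d i x) = true} ∪
          {i : Node D d | ∃ ξ, c (Q d i ξ) = true}).encard := rfl
    _ ≤ _ := (Set.encard_union_le _ _).trans (add_le_add h1 h2)

lemma exists_two {n : ℕ} {m : ℕ} (hn : m + 2 ≤ n) (B : Set (Fin n)) (hB : B.encard ≤ m) :
    ∃ a b : Fin n, a ≠ b ∧ a ∉ B ∧ b ∉ B := by
  have h1 : B.encard + (Bᶜ).encard = n := by
    rw [Set.encard_add_encard_compl]
    simp
  have h2 : (2 : ℕ∞) ≤ (Bᶜ).encard := by
    by_contra hlt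
    push Not at hlt
    have h3 : (Bᶜ).encard ≤ 1 := by
      have : (Bᶜ).encard < 1 + 1 := by simpa [one_add_one_eq_two] using hlt
      exact Order.le_of_lt_add_one this
    have h4 : (n : ℕ∞) ≤ (m : ℕ∞) + 1 := h1 ▸ add_le_add hB h3
    have h5 : n ≤ m + 1 := by exact_mod_cast h4
    omega
  have h3 : 1 < (Bᶜ).encard := lt_of_lt_of_le (by norm_num) h2
  obtain ⟨a, b, ha, hb, hab⟩ := Set.one_lt_encard_iff.1 h3
  exact ⟨a, b, hab, ha, hb⟩

/-- the branching numbers used for the bound `f` -/
def branch (f : ℕ → ℕ) (d : ℕ) : ℕ := f (2 * d + 3) + f (2 * d + 4) + 2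

lemma main (f : ℕ → ℕ) (c : Vtx (branch f) → Bool)
    (hc : {r : ℕ | (f r : ℕ∞) < (Red c r).encard}.Finite) :
    ∃ σ : G (branch f) ≃g G (branch f), (∀ v, c (σ v) = c v) ∧ ∃ v, σ v ≠ v := by
  classical
  obtain ⟨R, hR⟩ := hc.bddAbove
  have hred : ∀ r, R < r → (Red c r).encard ≤ f r := by
    intro r hr
    by_contra hlt
    push Not at hlt
    have := hR (show r ∈ {r : ℕ | (f r : ℕ∞) < (Red c r).encard} from hlt)
    omega
  -- two good children of every deep node
  have hch : ∀ d, R ≤ d → ∀ i : Node (branch f) d, ∃ a b : Fin (branch f d), a ≠ b ∧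
      ¬ Bad c (d + 1) (i, a) ∧ ¬ Bad c (d + 1) (i, b) := by
    intro d hd i
    have h1 : {j : Fin (branch f d) | Bad c (d + 1) (i, j)}.encard
        ≤ ((f (2 * d + 3) + f (2 * d + 4) : ℕ) : ℕ∞) := by
      calc {j : Fin (branch f d) | Bad c (d + 1) (i, j)}.encard
          ≤ {k : Node (branch f) (d + 1) | Bad c (d + 1) k}.encard := by
            refine Set.encard_le_encard_of_injOn (f := fun j => (i, j)) ?_ ?_
            · intro j hj
              exact hj
            · intro j _ j' _ h
              exact congrArg Prod.snd h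
        _ ≤ _ := bad_encard c (d + 1)
        _ ≤ _ := by
            push_cast
            exact add_le_add (hred _ (by omega)) (hred _ (by omega))
    obtain ⟨a, b, hab, ha, hb⟩ := exists_two (le_refl _) _ h1
    exact ⟨a, b, hab, ha, hb⟩
  have hch' : ∀ d (i : Node (branch f) d), ∃ a b : Fin (branch f d), a ≠ b ∧
      (R ≤ d → ¬ Bad c (d + 1) (i, a) ∧ ¬ Bad c (d + 1) (i, b)) := by
    intro d i
    by_cases hd : R ≤ d
    · obtain ⟨a, b, h1, h2, h3⟩ := hch d hd i
      exact ⟨a, b, h1, fun _ => ⟨h2, h3⟩⟩
    · refine ⟨⟨0, by unfold branch; omega⟩, ⟨1, by unfold branch; omega⟩, ?_, fun h => absurd h hd⟩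
      simp
  choose a b hab hgood using hch'
  -- the labelling
  let g : (d : ℕ) → Node (branch f) d → ZMod 2 := fun d => Nat.rec (fun _ => 0)
    (fun d gd ij => if d = R + 1 then
      (if Bad c d ij.1 then 0 else if ij.2 = a d ij.1 ∨ ij.2 = b d ij.1 then 1 else 0)
      else (if ij.2 = a d ij.1 then gd ij.1 else 0)) d
  have g0 : ∀ i, g 0 i = 0 := fun i => rfl
  have gs : ∀ d (i : Node (branch f) d) (j : Fin (branch f d)), g (d + 1) (i, j) =
      if d = R + 1 then
      (if Bad c d i then 0 else if j = a d i ∨ j = b d i then 1 else 0)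
      else (if j = a d i then g d i else 0) := fun d i j => rfl
  have gzero : ∀ d, d ≤ R + 1 → ∀ i, g d i = 0 := by
    intro d
    induction d with
    | zero => intro _ i; exact g0 i
    | succ d ih =>
      rintro hd ⟨i, j⟩
      rw [gs, if_neg (by omega), ih (by omega)]
      simp
  have gbad : ∀ d (i : Node (branch f) d), Bad c d i → g d i = 0 := by
    intro d
    induction d with
    | zero => intro i _; exact g0 i
    | succ d ih =>
      rintro ⟨i, j⟩ hb
      rw [gs]
      split_ifs with h1 h2 h3 h4
      · rfl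
      · exfalso
        have := hgood d i (by omega)
        rcases h3 with h3 | h3
        · exact this.1 (h3 ▸ hb)
        · exact this.2 (h3 ▸ hb)
      · rfl
      · by_cases hd : d ≤ R + 1
        · exact gzero d hd i
        · exact absurd hb (h4 ▸ (hgood d i (by omega)).1)
      · rfl
  have gbad' : ∀ d (i : Node (branch f) d), Bad c d i → ∀ j, g (d + 1) (i, j) = 0 := by
    intro d i hb j
    rw [gs]
    split_ifs with h1 h2
    · rfl
    · exact gbad d i hb
    · rfl
  have gsum : ∀ d (i : Node (branch f) d), g d i = ∑ j, g (d + 1) (i, j) := by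
    intro d i
    simp only [gs]
    by_cases h1 : d = R + 1
    · rw [gzero d (by omega) i]
      simp only [if_pos h1]
      by_cases h2 : Bad c d i
      · simp [h2]
      · simp only [if_neg h2]
        have h3 : ∀ j : Fin (branch f d), (if j = a d i ∨ j = b d i then (1 : ZMod 2) else 0) =
            (if j = a d i then 1 else 0) + (if j = b d i then 1 else 0) := by
          intro j
          by_cases h4 : j = a d i
          · have h5 : j ≠ b d i := fun h => hab d i (h4.symm.trans h)
            simp [h4, hab d i]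
          · simp [h4]
        simp only [h3, Finset.sum_add_distrib, Finset.sum_ite_eq', Finset.mem_univ, if_true]
        decide
    · simp [if_neg h1]
  -- a good node of depth `R + 1`
  obtain ⟨i₀, hi₀⟩ : ∃ i : Node (branch f) (R + 1), ¬ Bad c (R + 1) i := by
    have : ∀ d, Nonempty (Node (branch f) d) := by
      intro d
      induction d with
      | zero => exact ⟨()⟩
      | succ d ih =>
        obtain ⟨i⟩ := ih
        exact ⟨(i, ⟨0, by unfold branch; omega⟩)⟩
    obtain ⟨i⟩ := this R
    exact ⟨(i, a R i), (hgood R i le_rfl).1⟩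
  refine ⟨actIso g gsum, ?_, P (R + 2) (i₀, a (R + 1) i₀) 0, ?_⟩
  · have hfix : ∀ v, c v = true → act g v = v := by
      intro v hv
      match v with
      | root => rfl
      | P d i x =>
        have : g d i = 0 := gbad d i (Or.inl ⟨x, hv⟩)
        simp [act, this]
      | Q d i ξ =>
        have : ∀ j, g (d + 1) (i, j) = 0 := gbad' d i (Or.inr ⟨ξ, hv⟩)
        simp [act, this]
    intro v
    change c (act g v) = c v
    cases h1 : c v with
    | true => rw [hfix v h1]; exact h1
    | false =>
      cases h2 : c (act g v) with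
      | false => rfl
      | true =>
        have h3 := hfix _ h2
        rw [act_act] at h3
        rw [← h3] at h2
        rw [h1] at h2
        exact absurd h2 (by decide)
  · change act g (P (R + 2) (i₀, a (R + 1) i₀) 0) ≠ _
    have h1 : g (R + 1 + 1) (i₀, a (R + 1) i₀) = 1 := by
      rw [gs, if_pos rfl, if_neg hi₀, if_pos (Or.inl rfl)]
    intro h
    change P (R + 1 + 1) (i₀, a (R + 1) i₀) (0 + g (R + 1 + 1) (i₀, a (R + 1) i₀)) = _ at h
    rw [h1] at h
    injection h with h2 h3 h4
    exact absurd h4 (by decide)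

/-- For every function `f : ℕ → ℕ` there is a connected, locally finite rooted graph with
infinite motion such that every asymmetric 2-colouring has more than `f r` red vertices on the
sphere of radius `r` about the root, for infinitely many `r`. -/
theorem result : ∀ f : ℕ → ℕ, ∃ (V : Type) (X : SimpleGraph V) (v₀ : V),
    X.Connected ∧ (∀ v, (X.neighborSet v).Finite) ∧ InfiniteMotion X ∧
      ∀ c : V → Bool, IsAsymmetric X c →
        {r : ℕ | (f r : ℕ∞) < {v : V | X.dist v₀ v = r ∧ c v = true}.encard}.Infinite := by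
  intro f
  refine ⟨Vtx (branch f), G (branch f), root, connected, locallyFinite,
    infiniteMotion (fun d => by unfold branch; omega), ?_⟩
  intro c hc hfin
  simp only [dist_root] at hfin
  obtain ⟨σ, h1, v, hv⟩ := main f c hfin
  exact hv (hc σ h1 v)

end Pool.Agent.Results.MP_f836f4_co.NoSphereBound
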